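import Mathlib
import Pool.Agent.Helper47K9.UD.Block
import Pool.Agent.Helper47K9.UD.Gap

set_option autoImplicit false

open Filter Topology

namespace Pool.Agent.Results.MP_f5ac68_nt.AlphaExceedsBeta

open Pool.Agent.H413R3 Pool.Agent.Helper47K9.UD

/-- `A` contains a `k`-term geometric progression `a, a q, ..., a q ^ (k - 1)` with rational
ratio `q > 1`. -/
def HasGP (k : ℕ) (A : Set ℕ) : Prop :=
  ∃ (a : ℕ) (q : ℚ), 1 < q ∧ ∀ i < k, ∃ n ∈ A, (n : ℚ) = a * q ^ i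

/-- The upper asymptotic density of `A`: the limes superior of `|A ∩ {1, ..., n}| / n`. -/
noncomputable def upperDensity (A : Set ℕ) : ℝ :=
  limsup (fun n : ℕ => ((A ∩ Set.Icc 1 n).ncard : ℝ) / n) atTop

/-- `A` has asymptotic density `d`: the quotient `|A ∩ {1, ..., n}| / n` tends to `d`. -/
def HasDensity (A : Set ℕ) (d : ℝ) : Prop :=
  Tendsto (fun n : ℕ => ((A ∩ Set.Icc 1 n).ncard : ℝ) / n) atTop (𝓝 d)

/-- The constant `α_k`: the supremum of the upper asymptotic densities of the sets of positive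
integers without `k`-term geometric progressions. -/
noncomputable def alpha (k : ℕ) : ℝ :=
  sSup {d : ℝ | ∃ A : Set ℕ, (∀ n ∈ A, 1 ≤ n) ∧ ¬ HasGP k A ∧ upperDensity A = d}

/-- The constant `β_k`: the supremum of the asymptotic densities of the sets of positive integers
without `k`-term geometric progressions which have an asymptotic density. -/
noncomputable def beta (k : ℕ) : ℝ :=
  sSup {d : ℝ | ∃ A : Set ℕ, (∀ n ∈ A, 1 ≤ n) ∧ ¬ HasGP k A ∧ HasDensity A d}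

lemma hasGP_iff {k : ℕ} (hk : 3 ≤ k) {A : Set ℕ} (hA : ∀ n ∈ A, 1 ≤ n) :
    ¬ HasGP k A ↔ KG.GPF k A := by
  rw [← KG.hasGP_iff hk hA, not_iff_not]
  constructor
  · rintro ⟨a, q, hq, h⟩
    obtain ⟨n0, m0, e0⟩ := h 0 (by omega)
    rw [pow_zero, mul_one] at e0
    have e0' : n0 = a := by exact_mod_cast e0
    refine ⟨a, (q : ℝ), ?_, by exact_mod_cast hq, fun i hi => ?_⟩
    · rw [← e0']; exact_mod_cast hA n0 m0
    · obtain ⟨n, mn, e⟩ := h i hi
      exact ⟨n, mn, by exact_mod_cast congrArg (fun x : ℚ => (x : ℝ)) e⟩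
  · rintro ⟨a, r, ha, hr, h⟩
    obtain ⟨n0, m0, e0⟩ := h 0 (by omega)
    obtain ⟨n1, m1, e1⟩ := h 1 (by omega)
    rw [pow_zero, mul_one] at e0
    rw [pow_one] at e1
    have hn0 : (0 : ℚ) < n0 := by exact_mod_cast hA n0 m0
    have hn0' : (0 : ℝ) < n0 := by exact_mod_cast hA n0 m0
    have hr' : r = ((n1 / n0 : ℚ) : ℝ) := by
      push_cast
      rw [e1, ← e0]
      field_simp
    refine ⟨n0, (n1 : ℚ) / n0, ?_, fun i hi => ?_⟩
    · rw [one_lt_div hn0]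
      have : (n0 : ℝ) < n1 := by rw [e0, e1]; nlinarith
      exact_mod_cast this
    · obtain ⟨n, mn, e⟩ := h i hi
      refine ⟨n, mn, ?_⟩
      have : ((n : ℚ) : ℝ) = (((n0 : ℚ) * ((n1 : ℚ) / n0) ^ i : ℚ) : ℝ) := by
        rw [Rat.cast_mul, Rat.cast_pow, ← hr']
        push_cast
        rw [e, e0]
      exact_mod_cast this

/-- For every `k ≥ 3` one has `β_k < α_k`. -/
theorem result (k : ℕ) (hk : 3 ≤ k) : beta k < alpha k := by
  obtain ⟨α, hα, hb⟩ := exists_limit hk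
  obtain ⟨A, a1, a2, a3⟩ := exists_attain hk hα
  have hα' : alpha k = α := by
    apply IsGreatest.csSup_eq
    refine ⟨⟨A, a1, (hasGP_iff hk a1).2 a2, a3⟩, ?_⟩
    rintro d ⟨B, b1, b2, rfl⟩
    exact ud_le_of_gpf hα ((hasGP_iff hk b1).1 b2)
  obtain ⟨s, h1, h2, ⟨⟨B, b1, b2, b3⟩, h3⟩, h4⟩ := KG.full hk
  have hβ : beta k = s := by
    apply IsGreatest.csSup_eq
    refine ⟨⟨B, b1, (hasGP_iff hk b1).2 ((KG.hasGP_iff hk b1).1 b2), b3⟩, ?_⟩
    rintro d ⟨C, c1, c2, c3⟩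
    exact h3 ⟨C, c1, (KG.hasGP_iff hk c1).2 ((hasGP_iff hk c1).1 c2), c3⟩
  rw [hα', hβ]
  exact gap hk hα hb ((KG.hasGP_iff hk b1).1 b2) b3

end Pool.Agent.Results.MP_f5ac68_nt.AlphaExceedsBeta
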