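import Mathlib
import Pool.Agent.Helper47K9.UD.Block

set_option autoImplicit false

open Filter Topology

namespace Pool.Agent.Results.MP_f5ac68_nt.UpperDensity

open Pool.Agent.H413R3 Pool.Agent.Helper47K9.UD

/-- `A` contains a `k`-term geometric progression `a, a q, ..., a q ^ (k - 1)` with rational
ratio `q > 1`. -/
def HasGP (k : ℕ) (A : Set ℕ) : Prop :=
  ∃ (a : ℕ) (q : ℚ), 1 < q ∧ ∀ i < k, ∃ n ∈ A, (n : ℚ) = a * q ^ i

/-- The upper asymptotic density of `A`: the limes superior of `|A ∩ {1, ..., n}| / n`. -/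
noncomputable def upperDensity (A : Set ℕ) : ℝ :=
  limsup (fun n : ℕ => ((A ∩ Set.Icc 1 n).ncard : ℝ) / n) atTop

/-- The upper densities of the sets of positive integers without `k`-term geometric
progressions. -/
def upperDensities (k : ℕ) : Set ℝ :=
  {d : ℝ | ∃ A : Set ℕ, (∀ n ∈ A, 1 ≤ n) ∧ ¬ HasGP k A ∧ upperDensity A = d}

/-- The constant `α_k`. -/
noncomputable def alpha (k : ℕ) : ℝ := sSup (upperDensities k)

/-- The finite set `T` of positive integers contains no `k`-term geometric progression: no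
`a < b` in `T` such that all the numbers `a (b / a) ^ i`, `i < k`, lie in `T`. -/
def Free (k : ℕ) (T : Finset ℕ) : Prop :=
  ∀ a ∈ T, ∀ b ∈ T, a < b → ∃ i ∈ Finset.range k, ∀ c ∈ T, c * a ^ i ≠ a * b ^ i

instance (k : ℕ) : DecidablePred (Free k) := fun T => by unfold Free; infer_instance

/-- The maximal size of a subset of `{1, ..., N}` without `k`-term geometric progression. -/
def r (k N : ℕ) : ℕ := ((Finset.Icc 1 N).powerset.filter (Free k)).sup Finset.card

/-- The maximal size of a set of positive integers `n ≤ m` all of whose prime factors are `< K`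
that contains no `k`-term geometric progression. -/
def g (k K m : ℕ) : ℕ :=
  (((Finset.Icc 1 m).filter (fun n => ∀ p ∈ n.primeFactors, p < K)).powerset.filter
    (Free k)).sup Finset.card

/-- The `K`-th approximation
`∏_{p < K} (1 - 1 / p) * ∑_{1 ≤ m ≤ (∏_{p < K} p) ^ K} (g(m) - g(m - 1)) / m` with `g = g k K`; this
is a computable function of `k` and `K` with rational values. -/
def opt (k K : ℕ) : ℚ :=
  (∏ p ∈ Nat.primesBelow K, (1 - 1 / (p : ℚ))) *
    ∑ m ∈ Finset.Icc 1 ((∏ p ∈ Nat.primesBelow K, p) ^ K),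
      ((g k K m : ℚ) - (g k K (m - 1) : ℚ)) / (m : ℚ)

lemma hasGP_iff {k : ℕ} (hk : 3 ≤ k) {A : Set ℕ} (hA : ∀ n ∈ A, 1 ≤ n) :
    ¬ HasGP k A ↔ KG.GPF k A := by
  rw [← KG.hasGP_iff hk hA, not_iff_not]
  constructor
  · rintro ⟨a, q, hq, h⟩
    obtain ⟨n0, m0, e0⟩ := h 0 (by omega)
    rw [pow_zero, mul_one] at e0
    have e0' : n0 = a := by exact_mod_cast e0
    refine ⟨a, (q : ℝ), ?_, by exact_mod_cast hq, fun i hi => ?_⟩
    · rw [← e0']; exact_mod_cast hA n0 m0
    · obtain ⟨n, mn, e⟩ := h i hi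
      exact ⟨n, mn, by exact_mod_cast congrArg (fun x : ℚ => (x : ℝ)) e⟩
  · rintro ⟨a, r, ha, hr, h⟩
    obtain ⟨n0, m0, e0⟩ := h 0 (by omega)
    obtain ⟨n1, m1, e1⟩ := h 1 (by omega)
    rw [pow_zero, mul_one] at e0
    rw [pow_one] at e1
    have hn0 : (0 : ℚ) < n0 := by exact_mod_cast hA n0 m0
    have hn0' : (0 : ℝ) < n0 := by exact_mod_cast hA n0 m0
    have hr' : r = ((n1 / n0 : ℚ) : ℝ) := by
      push_cast
      rw [e1, ← e0]
      field_simp
    refine ⟨n0, (n1 : ℚ) / n0, ?_, fun i hi => ?_⟩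
    · rw [one_lt_div hn0]
      have : (n0 : ℝ) < n1 := by rw [e0, e1]; nlinarith
      exact_mod_cast this
    · obtain ⟨n, mn, e⟩ := h i hi
      refine ⟨n, mn, ?_⟩
      have : ((n : ℚ) : ℝ) = (((n0 : ℚ) * ((n1 : ℚ) / n0) ^ i : ℚ) : ℝ) := by
        rw [Rat.cast_mul, Rat.cast_pow, ← hr']
        push_cast
        rw [e, e0]
      exact_mod_cast this

lemma free_iff {k : ℕ} (hk : 3 ≤ k) {T : Finset ℕ} (hT : ∀ n ∈ T, 1 ≤ n) :
    Free k T ↔ KG.GPF k (T : Set ℕ) := by
  rw [← KG.hasGP_iff hk (fun n hn => hT n (Finset.mem_coe.1 hn))]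
  exact KG.freeK_iff (by omega) hT

lemma r_eq {k : ℕ} (hk : 3 ≤ k) (N : ℕ) : r k N = mx k Set.univ N := by
  apply le_antisymm
  · unfold r
    rw [Finset.sup_le_iff]
    intro T hT
    rw [Finset.mem_filter, Finset.mem_powerset] at hT
    have h1 : ∀ t ∈ T, 1 ≤ t ∧ t ≤ N := fun t ht => Finset.mem_Icc.1 (hT.1 ht)
    exact le_mx ⟨T, fun t ht => ⟨(h1 t ht).1, (h1 t ht).2, Set.mem_univ _⟩,
      (free_iff hk fun t ht => (h1 t ht).1).1 hT.2, rfl⟩
  · obtain ⟨T, hT, hg, hc⟩ := mx_mem hk Set.univ N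
    rw [← hc]
    apply Finset.le_sup (f := Finset.card)
    rw [Finset.mem_filter, Finset.mem_powerset]
    exact ⟨fun t ht => Finset.mem_Icc.2 ⟨(hT t ht).1, (hT t ht).2.1⟩,
      (free_iff hk fun t ht => (hT t ht).1).2 hg⟩

lemma smooth_iff {K n : ℕ} (hn : 1 ≤ n) :
    (∀ p ∈ n.primeFactors, p < K) ↔ n ∈ Nat.smoothNumbers K := by
  rw [Nat.mem_smoothNumbers]
  constructor
  · intro h
    exact ⟨by omega, fun p hp => h p (Nat.mem_primeFactors_iff_mem_primeFactorsList.2 hp)⟩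
  · rintro ⟨_, h⟩ p hp
    exact h p (Nat.mem_primeFactors_iff_mem_primeFactorsList.1 hp)

lemma g_eq {k : ℕ} (hk : 3 ≤ k) (K m : ℕ) : g k K m = mx k (Nat.smoothNumbers K) m := by
  apply le_antisymm
  · unfold g
    rw [Finset.sup_le_iff]
    intro T hT
    rw [Finset.mem_filter, Finset.mem_powerset] at hT
    have h1 : ∀ t ∈ T, 1 ≤ t ∧ t ≤ m ∧ t ∈ Nat.smoothNumbers K := by
      intro t ht
      have := hT.1 ht
      rw [Finset.mem_filter, Finset.mem_Icc] at this
      exact ⟨this.1.1, this.1.2, (smooth_iff this.1.1).1 this.2⟩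
    exact le_mx ⟨T, h1, (free_iff hk fun t ht => (h1 t ht).1).1 hT.2, rfl⟩
  · obtain ⟨T, hT, hg, hc⟩ := mx_mem hk (Nat.smoothNumbers K) m
    rw [← hc]
    apply Finset.le_sup (f := Finset.card)
    rw [Finset.mem_filter, Finset.mem_powerset]
    refine ⟨fun t ht => ?_, (free_iff hk fun t ht => (hT t ht).1).2 hg⟩
    rw [Finset.mem_filter, Finset.mem_Icc]
    exact ⟨⟨(hT t ht).1, (hT t ht).2.1⟩, (smooth_iff (hT t ht).1).2 (hT t ht).2.2⟩

lemma opt_eq {k : ℕ} (hk : 3 ≤ k) (K : ℕ) :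
    (opt k K : ℝ) = KG.P K * KG.W (G k (Nat.smoothNumbers K) ∩ Set.Icc 1 (KG.Q K)) := by
  classical
  have h1 : (G k (Nat.smoothNumbers K) ∩ Set.Icc 1 (KG.Q K) : Set ℕ) =
      (((Finset.Icc 1 (KG.Q K)).filter (· ∈ G k (Nat.smoothNumbers K)) : Finset ℕ) : Set ℕ) := by
    ext n
    simp only [Set.mem_inter_iff, Set.mem_Icc, Finset.coe_filter, Finset.mem_Icc,
      Set.mem_ofPred_eq]
    tauto
  rw [h1, KG.W_finset, Finset.sum_filter]
  unfold opt KG.P
  push_cast
  have e1 : (∏ p ∈ Nat.primesBelow K, (1 - 1 / (p : ℝ))) =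
      ∏ p ∈ Nat.primesBelow K, (1 - (p : ℝ)⁻¹) := by simp [one_div]
  rw [e1]
  congr 1
  refine Finset.sum_congr rfl fun m hm => ?_
  rw [Finset.mem_Icc] at hm
  obtain ⟨n, rfl⟩ : ∃ n, m = n + 1 := ⟨m - 1, by omega⟩
  obtain ⟨s1, s2, _⟩ := mx_step hk (Nat.smoothNumbers K) n
  rw [Nat.add_sub_cancel, g_eq hk, g_eq hk]
  split_ifs with h
  · have h2 := h.2
    rw [Nat.add_sub_cancel] at h2
    have h3 : mx k (Nat.smoothNumbers K) (n + 1) = mx k (Nat.smoothNumbers K) n + 1 := by omega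
    rw [h3]
    push_cast
    rw [add_sub_cancel_left, one_div]
  · have h3 : mx k (Nat.smoothNumbers K) (n + 1) = mx k (Nat.smoothNumbers K) n := by
      by_contra hne
      exact h ⟨by omega, by rw [Nat.add_sub_cancel]; omega⟩
    rw [h3, sub_self, zero_div]

lemma opt_bounds {k : ℕ} (hk : 3 ≤ k) (K : ℕ) :
    (opt k K : ℝ) ≤ U k K ∧ U k K ≤ (opt k K : ℝ) + (K : ℝ) / 2 ^ (K + 1) := by
  rw [opt_eq hk]
  unfold U
  have hsm := G_sub hk (Nat.smoothNumbers K)
  constructor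
  · exact mul_le_mul_of_nonneg_left (KG.W_mono Set.inter_subset_left hsm) (KG.P_pos K).le
  · refine le_trans ?_ (add_le_add_right (KG.tail_bound K) _)
    rw [← mul_add]
    apply mul_le_mul_of_nonneg_left _ (KG.P_pos K).le
    unfold KG.W
    rw [← (KG.summable_of_smooth (Set.inter_subset_left.trans hsm)).tsum_add
      (KG.summable_of_smooth Set.sdiff_subset)]
    refine (KG.summable_of_smooth hsm).tsum_le_tsum (fun t => ?_)
      ((KG.summable_of_smooth (Set.inter_subset_left.trans hsm)).add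
        (KG.summable_of_smooth Set.sdiff_subset))
    by_cases ht : t ∈ G k (Nat.smoothNumbers K)
    · rw [Set.indicator_of_mem ht]
      by_cases h2 : t ≤ KG.Q K
      · rw [Set.indicator_of_mem (show t ∈ G k (Nat.smoothNumbers K) ∩ Set.Icc 1 (KG.Q K) from
          ⟨ht, ht.1, h2⟩)]
        exact le_add_of_nonneg_right (Set.indicator_nonneg (fun _ _ => by positivity) _)
      · have h3 : t ∈ Nat.smoothNumbers K \ ((KG.Q K).divisors : Set ℕ) := by
          refine ⟨hsm ht, fun h4 => h2 ?_⟩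
          rw [Finset.mem_coe, Nat.mem_divisors] at h4
          exact Nat.le_of_dvd (Nat.pos_of_ne_zero h4.2) h4.1
        rw [Set.indicator_of_mem h3]
        exact le_add_of_nonneg_left (Set.indicator_nonneg (fun _ _ => by positivity) _)
    · rw [Set.indicator_of_notMem ht]
      exact add_nonneg (Set.indicator_nonneg (fun _ _ => by positivity) _)
        (Set.indicator_nonneg (fun _ _ => by positivity) _)

/-- For every `k ≥ 3` the constant `α_k` is the limit of `r_k(N) / N`; it is also the limit of the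
computable sequence of rationals `opt k K`, with explicit error bounds; the supremum defining `α_k`
is attained, and the upper densities of the sets without `k`-term geometric progressions fill the
whole interval `[0, α_k]`. -/
theorem result (k : ℕ) (hk : 3 ≤ k) :
    Tendsto (fun N : ℕ => (r k N : ℝ) / N) atTop (𝓝 (alpha k)) ∧
    Tendsto (fun K : ℕ => (opt k K : ℝ)) atTop (𝓝 (alpha k)) ∧
    (∀ K : ℕ, 2 ≤ K →
      (opt k K : ℝ) - 1 / ((K : ℝ) - 1) ≤ alpha k ∧
      alpha k ≤ (opt k K : ℝ) + (K : ℝ) / 2 ^ (K + 1)) ∧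
    upperDensities k = Set.Icc 0 (alpha k) := by
  obtain ⟨α, hα, hb⟩ := exists_limit hk
  obtain ⟨A, a1, a2, a3⟩ := exists_attain hk hα
  have hud : ∀ B, upperDensity B = ud B := fun B => rfl
  have hup : ∀ d ∈ upperDensities k, d ≤ α := by
    rintro d ⟨B, b1, b2, rfl⟩
    rw [hud]
    exact ud_le_of_gpf hα ((hasGP_iff hk b1).1 b2)
  have hmem : α ∈ upperDensities k := ⟨A, a1, (hasGP_iff hk a1).2 a2, a3⟩
  have hα' : alpha k = α := IsGreatest.csSup_eq ⟨hmem, hup⟩
  rw [hα']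
  have herr : ∀ K : ℕ, 2 ≤ K →
      (opt k K : ℝ) - 1 / ((K : ℝ) - 1) ≤ α ∧ α ≤ (opt k K : ℝ) + (K : ℝ) / 2 ^ (K + 1) := by
    intro K hK
    obtain ⟨h1, h2⟩ := hb K hK
    obtain ⟨h3, h4⟩ := opt_bounds hk K
    refine ⟨?_, h2.trans h4⟩
    have h5 := U_le_one hk K
    have h6 := U_nonneg k K
    have hK1 : (0 : ℝ) < (K : ℝ) - 1 := by
      have : (2 : ℝ) ≤ K := by exact_mod_cast hK
      linarith
    have h7 : 0 ≤ 1 / ((K : ℝ) - 1) := by positivity
    nlinarith
  refine ⟨?_, ?_, herr, ?_⟩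
  · refine hα.congr fun N => ?_
    rw [r_eq hk]
  · have t1 : Tendsto (fun K : ℕ => α - (K : ℝ) / 2 ^ (K + 1)) atTop (𝓝 α) := by
      have h1 : Tendsto (fun K : ℕ => (K : ℝ) * (1 / 2) ^ K) atTop (𝓝 0) :=
        tendsto_self_mul_const_pow_of_lt_one (by norm_num) (by norm_num)
      have h2 : Tendsto (fun K : ℕ => (K : ℝ) / 2 ^ (K + 1)) atTop (𝓝 0) := by
        have h3 := h1.const_mul (1 / 2)
        rw [mul_zero] at h3
        refine h3.congr fun K => ?_
        rw [pow_succ, one_div, inv_pow]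
        field_simp
      have := (tendsto_const_nhds (x := α)).sub h2
      rwa [sub_zero] at this
    have t2 : Tendsto (fun K : ℕ => α + 1 / ((K : ℝ) - 1)) atTop (𝓝 α) := by
      have h1 : Tendsto (fun K : ℕ => (K : ℝ) - 1) atTop atTop :=
        tendsto_atTop_add_const_right _ (-1) tendsto_natCast_atTop_atTop
      have h2 := (tendsto_const_nhds (x := α)).add (h1.const_div_atTop 1)
      rwa [add_zero] at h2
    refine tendsto_of_tendsto_of_tendsto_of_le_of_le' t1 t2 ?_ ?_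
    · filter_upwards [eventually_ge_atTop 2] with K hK
      linarith [(herr K hK).2]
    · filter_upwards [eventually_ge_atTop 2] with K hK
      linarith [(herr K hK).1]
  · ext d
    constructor
    · intro hd
      refine ⟨?_, hup d hd⟩
      obtain ⟨B, _, _, rfl⟩ := hd
      exact ud_nonneg B
    · rintro ⟨hd0, hd1⟩
      obtain ⟨B, hBA, hB⟩ := exists_subset_ud A hd0 (by rw [a3]; exact hd1)
      refine ⟨B, fun n hn => a1 n (hBA hn), ?_, hB⟩
      exact (hasGP_iff hk (fun n hn => a1 n (hBA hn))).2 (KG.gpf_mono hBA a2)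

end Pool.Agent.Results.MP_f5ac68_nt.UpperDensity
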